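import Mathlib

/-! Nested choice of points with constant colours and constant orientations. -/

namespace Pool.Agent.W610.CP

open Finset

variable {α : Type*} [DecidableEq α]

/-- slope from `a` to `b` in the coordinates `(f, y)`. -/
noncomputable def sl (f y : α → ℝ) (a b : α) : ℝ := (y b - y a) / (f b - f a)

/-- The number of points needed: `2 (m+t)` to the power `t`. -/
theorem chain (f y : α → ℝ) (c : α → α → Bool) (t : ℕ) :
    ∀ (V S : Finset α), (∀ a ∈ S, ∀ b ∈ S, f a = f b → a = b) →
      (2 * (V.card + t)) ^ t ≤ S.card →
      ∃ (w : ℕ → α) (col : ℕ → Bool),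
        (∀ i < t, w i ∈ S) ∧
        (∀ i j, i < j → j < t → f (w i) < f (w j)) ∧
        (∀ i j, i < j → j < t → c (w i) (w j) = col i) ∧
        (∀ j < t, ∀ u, (u ∈ V ∨ ∃ i < j, u = w i) →
          ∀ k l, j < k → k < t → j < l → l < t →
            (sl f y u (w j) < sl f y (w j) (w k) ↔ sl f y u (w j) < sl f y (w j) (w l))) := by
  classical
  induction t with
  | zero =>
    intro V S _ hS
    have hne : S.Nonempty := by
      rw [← Finset.card_pos]
      have : 1 ≤ S.card := by simpa using hS
      omega
    obtain ⟨a, -⟩ := hne
    exact ⟨fun _ => a, fun _ => true, by simp, by simp, by simp, by simp⟩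
  | succ t ih =>
    intro V S hinj hS
    have hne : S.Nonempty := by
      rw [← Finset.card_pos]
      have : 0 < (2 * (V.card + (t + 1))) ^ (t + 1) := by positivity
      omega
    obtain ⟨a, haS, hamin⟩ := S.exists_min_image f hne
    -- the rest
    set R := S.erase a with hR
    have hRgt : ∀ x ∈ R, f a < f x := by
      intro x hx
      have hx' := Finset.mem_erase.1 hx
      rcases lt_or_eq_of_le (hamin x hx'.2) with h | h
      · exact h
      · exact absurd (hinj a haS x hx'.2 h).symm hx'.1
    rcases Nat.eq_zero_or_pos t with ht0 | htpos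
    · subst ht0
      refine ⟨fun _ => a, fun _ => true, ?_, ?_, ?_, ?_⟩
      · intro i _; exact haS
      · intro i j hij hj; omega
      · intro i j hij hj; omega
      · intro j hj u _ k l hk hk' _ _; omega
    -- pigeonhole
    let pat : α → ℕ := fun x => (V.filter (fun v => sl f y v a < sl f y a x)).card
    let key : α → ℕ × Bool := fun x => (pat x, c a x)
    let T : Finset (ℕ × Bool) := (Finset.range (V.card + 1)) ×ˢ (Finset.univ : Finset Bool)
    have hmaps : ∀ x ∈ R, key x ∈ T := by
      intro x _
      refine Finset.mem_product.2 ⟨?_, Finset.mem_univ _⟩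
      rw [Finset.mem_range]
      exact Nat.lt_succ_of_le (Finset.card_filter_le _ _)
    have hTcard : T.card = (V.card + 1) * 2 := by
      simp [T, Finset.card_product]
    have hTne : T.Nonempty := by
      rw [← Finset.card_pos, hTcard]; omega
    have hRcard : R.card = S.card - 1 := Finset.card_erase_of_mem haS
    have hbound : T.card * (2 * ((insert a V).card + t)) ^ t ≤ R.card := by
      have h1 : (insert a V).card ≤ V.card + 1 := Finset.card_insert_le _ _
      have h2 : (2 * ((insert a V).card + t)) ^ t ≤ (2 * (V.card + 1 + t)) ^ t :=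
        Nat.pow_le_pow_left (by omega) t
      have h3 : 1 ≤ (2 * (V.card + 1 + t)) ^ t := Nat.one_le_pow _ _ (by omega)
      have h4 : (2 * (V.card + (t + 1))) ^ (t + 1)
          = (2 * (V.card + 1 + t)) ^ t * (2 * (V.card + 1 + t)) := by
        rw [pow_succ]; ring_nf
      rw [hTcard, hRcard]
      have h5 : (V.card + 1) * 2 * (2 * ((insert a V).card + t)) ^ t
          ≤ (V.card + 1) * 2 * (2 * (V.card + 1 + t)) ^ t := Nat.mul_le_mul_left _ h2
      have h6 : (V.card + 1) * 2 * (2 * (V.card + 1 + t)) ^ t + 1 ≤ S.card := by
        calc (V.card + 1) * 2 * (2 * (V.card + 1 + t)) ^ t + 1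
            ≤ (V.card + 1) * 2 * (2 * (V.card + 1 + t)) ^ t
              + (2 * (V.card + 1 + t)) ^ t := by omega
          _ = (2 * (V.card + 1 + t)) ^ t * ((V.card + 1) * 2 + 1) := by ring
          _ ≤ (2 * (V.card + 1 + t)) ^ t * (2 * (V.card + 1 + t)) :=
              Nat.mul_le_mul_left _ (by omega)
          _ = (2 * (V.card + (t + 1))) ^ (t + 1) := h4.symm
          _ ≤ S.card := hS
      omega
    obtain ⟨κ, -, hκ⟩ := Finset.exists_le_card_fiber_of_mul_le_card_of_maps_to hmaps hTne hbound
    set S' := R.filter (fun x => key x = κ) with hS'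
    have hS'R : S' ⊆ R := Finset.filter_subset _ _
    have hinj' : ∀ x ∈ S', ∀ z ∈ S', f x = f z → x = z := by
      intro x hx z hz h
      exact hinj x (Finset.mem_of_mem_erase (hS'R hx)) z (Finset.mem_of_mem_erase (hS'R hz)) h
    obtain ⟨w, col, hwS, hwf, hwc, hwo⟩ := ih (insert a V) S' hinj' hκ
    -- pattern is constant on S'
    have hpat : ∀ x ∈ S', ∀ z ∈ S', ∀ u ∈ V,
        (sl f y u a < sl f y a x ↔ sl f y u a < sl f y a z) := by
      have key1 : ∀ x ∈ S', ∀ z ∈ S', sl f y a x ≤ sl f y a z → ∀ u ∈ V,
          (sl f y u a < sl f y a x ↔ sl f y u a < sl f y a z) := by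
        intro x hx z hz hle u hu
        have e1 : pat x = pat z := by
          have h1 := (Finset.mem_filter.1 hx).2
          have h2 := (Finset.mem_filter.1 hz).2
          have := h1.trans h2.symm
          exact congrArg Prod.fst this
        have hsub : V.filter (fun v => sl f y v a < sl f y a x) ⊆
            V.filter (fun v => sl f y v a < sl f y a z) := by
          intro v hv
          rw [Finset.mem_filter] at hv ⊢
          exact ⟨hv.1, lt_of_lt_of_le hv.2 hle⟩
        have heq := Finset.eq_of_subset_of_card_le hsub (le_of_eq e1.symm)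
        constructor
        · intro h; exact lt_of_lt_of_le h hle
        · intro h
          have : u ∈ V.filter (fun v => sl f y v a < sl f y a z) := Finset.mem_filter.2 ⟨hu, h⟩
          rw [← heq] at this
          exact (Finset.mem_filter.1 this).2
      intro x hx z hz u hu
      rcases le_total (sl f y a x) (sl f y a z) with h | h
      · exact key1 x hx z hz h u hu
      · exact (key1 z hz x hx h u hu).symm
    have hcol : ∀ x ∈ S', c a x = κ.2 := by
      intro x hx
      exact congrArg Prod.snd (Finset.mem_filter.1 hx).2
    -- the new sequence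
    refine ⟨fun i => if i = 0 then a else w (i - 1), fun i => if i = 0 then κ.2 else col (i - 1),
      ?_, ?_, ?_, ?_⟩
    · intro i hi
      by_cases h0 : i = 0
      · simp [h0, haS]
      · simp only [h0, if_false]
        exact Finset.mem_of_mem_erase (hS'R (hwS (i - 1) (by omega)))
    · intro i j hij hj
      have hj0 : j ≠ 0 := by omega
      by_cases h0 : i = 0
      · simp only [h0, if_true, hj0, if_false]
        exact hRgt _ (hS'R (hwS (j - 1) (by omega)))
      · simp only [h0, hj0, if_false]
        exact hwf (i - 1) (j - 1) (by omega) (by omega)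
    · intro i j hij hj
      have hj0 : j ≠ 0 := by omega
      by_cases h0 : i = 0
      · simp only [h0, if_true, hj0, if_false]
        exact hcol _ (hwS (j - 1) (by omega))
      · simp only [h0, hj0, if_false]
        exact hwc (i - 1) (j - 1) (by omega) (by omega)
    · intro j hj u hu k l hjk hk hjl hl
      have hk0 : k ≠ 0 := by omega
      have hl0 : l ≠ 0 := by omega
      by_cases h0 : j = 0
      · subst h0
        simp only [if_true, hk0, hl0, if_false]
        rcases hu with hu | ⟨i, hi, -⟩
        · exact hpat _ (hwS (k - 1) (by omega)) _ (hwS (l - 1) (by omega)) u hu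
        · omega
      · simp only [h0, hk0, hl0, if_false]
        refine hwo (j - 1) (by omega) u ?_ (k - 1) (l - 1) (by omega) (by omega) (by omega)
          (by omega)
        rcases hu with hu | ⟨i, hi, rfl⟩
        · exact Or.inl (Finset.mem_insert_of_mem hu)
        · by_cases hi0 : i = 0
          · left; simp [hi0]
          · right
            exact ⟨i - 1, by omega, by simp [hi0]⟩

end Pool.Agent.W610.CP
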