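import Mathlib
import Pool.Agent.W610.CP.Seq
import Pool.Agent.H184R3.ES

/-! Large two-coloured point sets contain monochromatic convex polygons. -/

namespace Pool.Agent.W610.CP

open Finset

/-- The Euclidean plane. -/
abbrev Pt : Type := EuclideanSpace ℝ (Fin 2)

/-- No three points on a line. -/
def GenPos (P : Finset Pt) : Prop :=
  ∀ x ∈ P, ∀ y ∈ P, ∀ z ∈ P, x ≠ y → y ≠ z → x ≠ z → ¬ Collinear ℝ ({x, y, z} : Set Pt)

/-- Some `p` points of `P` are in convex position and all pairs among them have one colour. -/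
def MonoConvex (P : Finset Pt) (c : Sym2 Pt → Bool) (p : ℕ) : Prop :=
  ∃ Q : Finset Pt, Q ⊆ P ∧ Q.card = p ∧
    ConvexIndependent ℝ (Subtype.val : ↥(Q : Set Pt) → Pt) ∧
    ∃ b : Bool, ∀ x ∈ Q, ∀ y ∈ Q, x ≠ y → c s(x, y) = b

/-- The property of `n` in the definition of `g p`. -/
def Arrow (p n : ℕ) : Prop :=
  ∀ P : Finset Pt, P.card = n → GenPos P → ∀ c : Sym2 Pt → Bool, MonoConvex P c p

/-- The least `n` with the property. -/
noncomputable def g (p : ℕ) : ℕ := sInf {n | Arrow p n}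

/-- A shear after which the first coordinates are distinct. -/
theorem exists_shear (P : Finset Pt) :
    ∃ ε : ℝ, ∀ a ∈ P, ∀ b ∈ P, a 0 + ε * a 1 = b 0 + ε * b 1 → a = b := by
  classical
  let bad : Finset ℝ := (P ×ˢ P).image (fun q => -(q.1 0 - q.2 0) / (q.1 1 - q.2 1))
  obtain ⟨ε, hε⟩ := Infinite.exists_notMem_finset bad
  refine ⟨ε, fun a ha b hb h => ?_⟩
  by_cases h1 : a 1 = b 1
  · have h0 : a 0 = b 0 := by rw [h1] at h; linarith
    ext i
    fin_cases i
    · exact h0
    · exact h1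
  · exfalso
    apply hε
    refine Finset.mem_image.2 ⟨(a, b), Finset.mem_product.2 ⟨ha, hb⟩, ?_⟩
    have h2 : a 1 - b 1 ≠ 0 := sub_ne_zero.2 h1
    simp only
    rw [div_eq_iff h2]
    linarith

/-- Equal slopes mean collinear points. -/
theorem collinear_of_slope (ε : ℝ) (u w x : Pt)
    (h1 : u 0 + ε * u 1 < w 0 + ε * w 1) (h2 : w 0 + ε * w 1 < x 0 + ε * x 1)
    (h : sl (fun a : Pt => a 0 + ε * a 1) (fun a => a 1) u w
      = sl (fun a : Pt => a 0 + ε * a 1) (fun a => a 1) w x) :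
    Collinear ℝ ({u, w, x} : Set Pt) := by
  rw [collinear_iff_of_mem (p₀ := u) (by simp)]
  have d1 : 0 < (w 0 + ε * w 1) - (u 0 + ε * u 1) := by linarith
  have d2 : 0 < (x 0 + ε * x 1) - (w 0 + ε * w 1) := by linarith
  unfold sl at h
  simp only at h
  rw [div_eq_div_iff d1.ne' d2.ne'] at h
  refine ⟨w - u, ?_⟩
  intro q hq
  simp only [Set.mem_insert_iff, Set.mem_singleton_iff] at hq
  rcases hq with rfl | rfl | rfl
  · exact ⟨0, by simp⟩
  · exact ⟨1, by simp⟩
  · refine ⟨((q 0 + ε * q 1) - (u 0 + ε * u 1)) / ((w 0 + ε * w 1) - (u 0 + ε * u 1)), ?_⟩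
    have e1 : q 1 = ((q 0 + ε * q 1) - (u 0 + ε * u 1)) / ((w 0 + ε * w 1) - (u 0 + ε * u 1))
        * (w 1 - u 1) + u 1 := by
      field_simp
      linear_combination (-1 : ℝ) * h
    have e0 : q 0 = ((q 0 + ε * q 1) - (u 0 + ε * u 1)) / ((w 0 + ε * w 1) - (u 0 + ε * u 1))
        * (w 0 - u 0) + u 0 := by
      field_simp
      linear_combination ε * h
    ext i
    fin_cases i
    · simpa using e0
    · simpa using e1

/-- Three point slopes. -/
theorem slope3 {α : Type*} (f y : α → ℝ) (a b z : α) (h1 : f a < f b) (h2 : f b < f z) :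
    sl f y a z < sl f y b z ↔ sl f y a b < sl f y b z := by
  have d1 : 0 < f b - f a := by linarith
  have d2 : 0 < f z - f b := by linarith
  have d3 : 0 < f z - f a := by linarith
  unfold sl
  rw [div_lt_div_iff₀ d3 d2, div_lt_div_iff₀ d1 d2]
  constructor
  · intro h; nlinarith
  · intro h; nlinarith

theorem slope3' {α : Type*} (f y : α → ℝ) (a b z : α) (h1 : f a < f b) (h2 : f b < f z) :
    sl f y a z = sl f y b z ↔ sl f y a b = sl f y b z := by
  have d1 : 0 < f b - f a := by linarith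
  have d2 : 0 < f z - f b := by linarith
  have d3 : 0 < f z - f a := by linarith
  unfold sl
  rw [div_eq_div_iff d3.ne' d2.ne', div_eq_div_iff d1.ne' d2.ne']
  constructor
  · intro h; linear_combination h
  · intro h; linear_combination h

/-- Convex independence from separating functionals. -/
theorem convInd_of_sep (Q : Finset Pt)
    (h : ∀ x ∈ Q, ∃ l : Pt →ₗ[ℝ] ℝ, ∀ z ∈ Q, z ≠ x → l x < l z) :
    ConvexIndependent ℝ (Subtype.val : ↥(Q : Set Pt) → Pt) := by
  rw [convexIndependent_set_iff_notMem_convexHull_sdiff]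
  intro x hx hmem
  obtain ⟨l, hl⟩ := h x hx
  have hsub : ((Q : Set Pt) \ {x}) ⊆ {w | l x < l w} := by
    intro z hz
    exact hl z hz.1 hz.2
  have hlt : l x < l x := convexHull_min hsub (convex_halfSpace_gt l.isLinear (l x)) hmem
  exact lt_irrefl (l x) hlt

/-- The functional `y - τ f`. -/
noncomputable def fn (ε τ : ℝ) : Pt →ₗ[ℝ] ℝ :=
  (EuclideanSpace.proj (1 : Fin 2) : Pt →L[ℝ] ℝ).toLinearMap
    - τ • ((EuclideanSpace.proj (0 : Fin 2) : Pt →L[ℝ] ℝ).toLinearMap
      + ε • (EuclideanSpace.proj (1 : Fin 2) : Pt →L[ℝ] ℝ).toLinearMap)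

theorem fn_apply (ε τ : ℝ) (x : Pt) : fn ε τ x = x 1 - τ * (x 0 + ε * x 1) := by
  simp only [fn, LinearMap.sub_apply, LinearMap.smul_apply, LinearMap.add_apply,
    ContinuousLinearMap.coe_coe, smul_eq_mul]
  rfl

/-- The separation step: all slopes to the left of `m` are below all slopes to the right. -/
theorem sep_of_slopes (ε : ℝ) (J : Finset ℕ) (w : ℕ → Pt)
    (hf : ∀ i ∈ J, ∀ j ∈ J, i < j → (w i) 0 + ε * (w i) 1 < (w j) 0 + ε * (w j) 1)
    (hs : ∀ i ∈ J, ∀ j ∈ J, ∀ k ∈ J, i < j → j < k →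
      sl (fun a : Pt => a 0 + ε * a 1) (fun a => a 1) (w i) (w j)
        < sl (fun a : Pt => a 0 + ε * a 1) (fun a => a 1) (w j) (w k)) :
    ∀ m ∈ J, ∃ τ : ℝ, ∀ i ∈ J, i ≠ m →
      (w m) 1 - τ * ((w m) 0 + ε * (w m) 1) < (w i) 1 - τ * ((w i) 0 + ε * (w i) 1) := by
  classical
  intro m hm
  obtain ⟨τ, h1, h2⟩ := Order.exists_between_finsets
    ((J.filter (· < m)).image
      (fun i => sl (fun a : Pt => a 0 + ε * a 1) (fun a => a 1) (w i) (w m)))
    ((J.filter (m < ·)).image
      (fun k => sl (fun a : Pt => a 0 + ε * a 1) (fun a => a 1) (w m) (w k)))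
    (by
      intro x hx z hz
      obtain ⟨i, hi, rfl⟩ := Finset.mem_image.1 hx
      obtain ⟨k, hk, rfl⟩ := Finset.mem_image.1 hz
      rw [Finset.mem_filter] at hi hk
      exact hs i hi.1 m hm k hk.1 hi.2 hk.2)
  refine ⟨τ, ?_⟩
  intro i hi him
  rcases lt_or_gt_of_ne him with h | h
  · have := h1 _ (Finset.mem_image.2 ⟨i, Finset.mem_filter.2 ⟨hi, h⟩, rfl⟩)
    have hff := hf i hi m hm h
    unfold sl at this
    simp only at this
    rw [div_lt_iff₀ (by linarith)] at this
    linarith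
  · have := h2 _ (Finset.mem_image.2 ⟨i, Finset.mem_filter.2 ⟨hi, h⟩, rfl⟩)
    have hff := hf m hm i hi h
    unfold sl at this
    simp only at this
    rw [lt_div_iff₀ (by linarith)] at this
    linarith

/-- The same with all inequalities between slopes reversed. -/
theorem sep_of_slopes' (ε : ℝ) (J : Finset ℕ) (w : ℕ → Pt)
    (hf : ∀ i ∈ J, ∀ j ∈ J, i < j → (w i) 0 + ε * (w i) 1 < (w j) 0 + ε * (w j) 1)
    (hs : ∀ i ∈ J, ∀ j ∈ J, ∀ k ∈ J, i < j → j < k →
      sl (fun a : Pt => a 0 + ε * a 1) (fun a => a 1) (w j) (w k)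
        < sl (fun a : Pt => a 0 + ε * a 1) (fun a => a 1) (w i) (w j)) :
    ∀ m ∈ J, ∃ τ : ℝ, ∀ i ∈ J, i ≠ m →
      (w i) 1 - τ * ((w i) 0 + ε * (w i) 1) < (w m) 1 - τ * ((w m) 0 + ε * (w m) 1) := by
  classical
  intro m hm
  obtain ⟨τ, h1, h2⟩ := Order.exists_between_finsets
    ((J.filter (m < ·)).image
      (fun k => sl (fun a : Pt => a 0 + ε * a 1) (fun a => a 1) (w m) (w k)))
    ((J.filter (· < m)).image
      (fun i => sl (fun a : Pt => a 0 + ε * a 1) (fun a => a 1) (w i) (w m)))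
    (by
      intro x hx z hz
      obtain ⟨k, hk, rfl⟩ := Finset.mem_image.1 hx
      obtain ⟨i, hi, rfl⟩ := Finset.mem_image.1 hz
      rw [Finset.mem_filter] at hi hk
      exact hs i hi.1 m hm k hk.1 hi.2 hk.2)
  refine ⟨τ, ?_⟩
  intro i hi him
  rcases lt_or_gt_of_ne him with h | h
  · have := h2 _ (Finset.mem_image.2 ⟨i, Finset.mem_filter.2 ⟨hi, h⟩, rfl⟩)
    have hff := hf i hi m hm h
    unfold sl at this
    simp only at this
    rw [lt_div_iff₀ (by linarith)] at this
    linarith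
  · have := h1 _ (Finset.mem_image.2 ⟨i, Finset.mem_filter.2 ⟨hi, h⟩, rfl⟩)
    have hff := hf m hm i hi h
    unfold sl at this
    simp only at this
    rw [div_lt_iff₀ (by linarith)] at this
    linarith

/-- A monotone sequence of `p` elements in a set of more than `(p-1)^2` indices. -/
theorem es_index (p : ℕ) (I : Finset ℕ) (h : ℕ → ℝ)
    (hinj : ∀ i ∈ I, ∀ j ∈ I, h i = h j → i = j) (hI : (p - 1) * (p - 1) < I.card) :
    ∃ J ⊆ I, J.card = p ∧
      ((∀ i ∈ J, ∀ j ∈ J, i < j → h i < h j) ∨ (∀ i ∈ J, ∀ j ∈ J, i < j → h j < h i)) := by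
  classical
  have hcard : (p - 1) * (p - 1) < Fintype.card {i // i ∈ I} := by simpa using hI
  have hinj' : Function.Injective (fun i : {i // i ∈ I} => h i.1) := by
    intro a b hab
    exact Subtype.ext (hinj a.1 a.2 b.1 b.2 hab)
  have main : ∀ t : Finset {i // i ∈ I}, p - 1 < t.card →
      ∃ J : Finset ℕ, J ⊆ I ∧ J.card = p ∧ ∀ i ∈ J, ∃ a ∈ t, a.1 = i := by
    intro t ht
    obtain ⟨t', ht't, ht'⟩ := Finset.exists_subset_card_eq (show p ≤ t.card by omega)
    refine ⟨t'.image Subtype.val, ?_, ?_, ?_⟩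
    · intro i hi
      obtain ⟨a, -, rfl⟩ := Finset.mem_image.1 hi
      exact a.2
    · rw [Finset.card_image_of_injective _ Subtype.val_injective, ht']
    · intro i hi
      obtain ⟨a, ha, rfl⟩ := Finset.mem_image.1 hi
      exact ⟨a, ht't ha, rfl⟩
  rcases Pool.Agent.H184R3.ES.erdos_szekeres hcard hinj' with ⟨t, ht, hm⟩ | ⟨t, ht, hm⟩
  · obtain ⟨J, hJI, hJ, hJt⟩ := main t ht
    refine ⟨J, hJI, hJ, Or.inl ?_⟩
    intro i hi j hj hij
    obtain ⟨a, ha, rfl⟩ := hJt i hi
    obtain ⟨b, hb, rfl⟩ := hJt j hj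
    exact hm ha hb hij
  · obtain ⟨J, hJI, hJ, hJt⟩ := main t ht
    refine ⟨J, hJI, hJ, Or.inr ?_⟩
    intro i hi j hj hij
    obtain ⟨a, ha, rfl⟩ := hJt i hi
    obtain ⟨b, hb, rfl⟩ := hJt j hj
    exact hm ha hb hij

/-- The arithmetic. -/
theorem arith (p : ℕ) (hp : 3 ≤ p) :
    (2 * (0 + (2 * ((p - 1) * (p - 1)) + 2))) ^ (2 * ((p - 1) * (p - 1)) + 2)
      ≤ (2 * p) ^ (4 * p ^ 2) := by
  obtain ⟨q, rfl⟩ : ∃ q, p = q + 1 := ⟨p - 1, by omega⟩
  have e : q + 1 - 1 = q := by omega
  rw [e]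
  have h1 : 2 * (0 + (2 * (q * q) + 2)) ≤ (2 * (q + 1)) ^ 2 := by nlinarith
  have h2 : 2 * (q * q) + 2 ≤ 2 * (q + 1) ^ 2 := by nlinarith
  calc (2 * (0 + (2 * (q * q) + 2))) ^ (2 * (q * q) + 2)
      ≤ ((2 * (q + 1)) ^ 2) ^ (2 * (q * q) + 2) := Nat.pow_le_pow_left h1 _
    _ ≤ ((2 * (q + 1)) ^ 2) ^ (2 * (q + 1) ^ 2) := Nat.pow_le_pow_right (by positivity) h2
    _ = (2 * (q + 1)) ^ (4 * (q + 1) ^ 2) := by rw [← pow_mul]; congr 1; ring

theorem arrow (p : ℕ) (hp : 3 ≤ p) (n : ℕ) (hn : (2 * p) ^ (4 * p ^ 2) ≤ n) : Arrow p n := by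
  classical
  intro P hP hgen c
  obtain ⟨ε, hε⟩ := exists_shear P
  set f : Pt → ℝ := fun a => a 0 + ε * a 1 with hf
  set y : Pt → ℝ := fun a => a 1 with hy
  set t := 2 * ((p - 1) * (p - 1)) + 2 with ht
  have hcard : (2 * ((∅ : Finset Pt).card + t)) ^ t ≤ P.card := by
    rw [hP, Finset.card_empty]
    exact (arith p hp).trans hn
  obtain ⟨w, col, hwS, hwf, hwc, hwo⟩ := chain f y (fun a b => c s(a, b)) t ∅ P hε hcard
  -- general position of the sequence
  have hne : ∀ i j, i < j → j < t → w i ≠ w j := by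
    intro i j hij hj h
    have := hwf i j hij hj
    rw [h] at this
    exact lt_irrefl _ this
  have hgenw : ∀ i j k, i < j → j < k → k < t → sl f y (w i) (w j) ≠ sl f y (w j) (w k) := by
    intro i j k hij hjk hk h
    exact hgen (w i) (hwS i (by omega)) (w j) (hwS j (by omega)) (w k) (hwS k hk)
      (hne i j hij (by omega)) (hne j k hjk hk) (hne i k (by omega) hk)
      (collinear_of_slope ε _ _ _ (hwf i j hij (by omega)) (hwf j k hjk hk) h)
  -- the last point
  set z := w (t - 1) with hz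
  let h : ℕ → ℝ := fun i => sl f y (w i) z
  have hinj : ∀ i j, i < j → j < t - 1 → h i ≠ h j := by
    intro i j hij hj heq
    have := (slope3' f y (w i) (w j) z (hwf i j hij (by omega))
      (hwf j (t - 1) (by omega) (by omega))).1 heq
    exact hgenw i j (t - 1) hij (by omega) (by omega) this
  -- a large colour class
  obtain ⟨b, hb⟩ : ∃ b : Bool, (p - 1) * (p - 1) <
      ((Finset.range (t - 1)).filter (fun i => col i = b)).card := by
    by_contra hcon
    push Not at hcon
    have h1 := hcon true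
    have h2 := hcon false
    have h3 : ((Finset.range (t - 1)).filter (fun i => col i = true)).card
        + ((Finset.range (t - 1)).filter (fun i => ¬ col i = true)).card
        = (Finset.range (t - 1)).card := Finset.card_filter_add_card_filter_not _
    have h4 : (Finset.range (t - 1)).filter (fun i => ¬ col i = true)
        = (Finset.range (t - 1)).filter (fun i => col i = false) := by
      apply Finset.filter_congr
      intro i _
      simp
    rw [h4, Finset.card_range] at h3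
    omega
  set I := (Finset.range (t - 1)).filter (fun i => col i = b) with hI
  have hIt : ∀ i ∈ I, i < t - 1 := fun i hi => Finset.mem_range.1 (Finset.mem_filter.1 hi).1
  obtain ⟨J, hJI, hJ, hJm⟩ := es_index p I h (by
    intro i hi j hj hij
    rcases lt_trichotomy i j with hlt | heq | hgt
    · exact absurd hij (hinj i j hlt (hIt j hj))
    · exact heq
    · exact absurd hij.symm (hinj j i hgt (hIt i hi))) hb
  have hJt : ∀ i ∈ J, i < t - 1 := fun i hi => hIt i (hJI hi)
  have hwinj : Set.InjOn w (J : Set ℕ) := by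
    intro i hi j hj hij
    rcases lt_trichotomy i j with hlt | heq | hgt
    · exact absurd hij (hne i j hlt (by have := hJt j hj; omega))
    · exact heq
    · exact absurd hij.symm (hne j i hgt (by have := hJt i hi; omega))
  refine ⟨J.image w, ?_, ?_, ?_, b, ?_⟩
  · intro q hq
    obtain ⟨i, hi, rfl⟩ := Finset.mem_image.1 hq
    exact hwS i (by have := hJt i hi; omega)
  · rw [Finset.card_image_of_injOn hwinj, hJ]
  · have hfJ : ∀ i ∈ J, ∀ j ∈ J, i < j → f (w i) < f (w j) := by
      intro i _ j hj hij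
      exact hwf i j hij (by have := hJt j hj; omega)
    rcases hJm with hup | hdown
    · have hs : ∀ i ∈ J, ∀ j ∈ J, ∀ k ∈ J, i < j → j < k →
          sl f y (w i) (w j) < sl f y (w j) (w k) := by
        intro i hi j hj k hk hij hjk
        have h1 := hup i hi j hj hij
        have ht' := hJt k hk
        have h2 := (slope3 f y (w i) (w j) z (hwf i j hij (by omega))
          (hwf j (t - 1) (by omega) (by omega))).1 h1
        exact (hwo j (by omega) (w i) (Or.inr ⟨i, hij, rfl⟩) k (t - 1) hjk (by omega)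
          (by omega) (by omega)).2 h2
      have hsep := sep_of_slopes ε J w hfJ hs
      apply convInd_of_sep
      intro x hx
      obtain ⟨m, hm, rfl⟩ := Finset.mem_image.1 hx
      obtain ⟨τ, hτ⟩ := hsep m hm
      refine ⟨fn ε τ, ?_⟩
      intro q hq hqm
      obtain ⟨i, hi, rfl⟩ := Finset.mem_image.1 hq
      rw [fn_apply, fn_apply]
      exact hτ i hi (fun h => hqm (by rw [h]))
    · have hs : ∀ i ∈ J, ∀ j ∈ J, ∀ k ∈ J, i < j → j < k →
          sl f y (w j) (w k) < sl f y (w i) (w j) := by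
        intro i hi j hj k hk hij hjk
        have h1 := hdown i hi j hj hij
        have ht' := hJt k hk
        have h2 : ¬ sl f y (w i) (w j) < sl f y (w j) z := by
          intro h3
          have := (slope3 f y (w i) (w j) z (hwf i j hij (by omega))
            (hwf j (t - 1) (by omega) (by omega))).2 h3
          exact lt_asymm h1 this
        have h4 : ¬ sl f y (w i) (w j) < sl f y (w j) (w k) := by
          intro h3
          exact h2 ((hwo j (by omega) (w i) (Or.inr ⟨i, hij, rfl⟩) k (t - 1) hjk (by omega)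
            (by omega) (by omega)).1 h3)
        exact lt_of_le_of_ne (not_lt.1 h4) (hgenw i j k hij hjk (by omega)).symm
      have hsep := sep_of_slopes' ε J w hfJ hs
      apply convInd_of_sep
      intro x hx
      obtain ⟨m, hm, rfl⟩ := Finset.mem_image.1 hx
      obtain ⟨τ, hτ⟩ := hsep m hm
      refine ⟨- fn ε τ, ?_⟩
      intro q hq hqm
      obtain ⟨i, hi, rfl⟩ := Finset.mem_image.1 hq
      rw [LinearMap.neg_apply, LinearMap.neg_apply, fn_apply, fn_apply]
      exact neg_lt_neg (hτ i hi (fun h => hqm (by rw [h])))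
  · intro x hx x' hx' hxx'
    obtain ⟨i, hi, rfl⟩ := Finset.mem_image.1 hx
    obtain ⟨j, hj, rfl⟩ := Finset.mem_image.1 hx'
    have hcol : ∀ i ∈ J, col i = b := fun i hi => (Finset.mem_filter.1 (hJI hi)).2
    rcases lt_trichotomy i j with hlt | heq | hgt
    · rw [← hcol i hi]
      exact hwc i j hlt (by have := hJt j hj; omega)
    · exact absurd (by rw [heq]) hxx'
    · rw [← hcol j hj, Sym2.eq_swap]
      exact hwc j i hgt (by have := hJt i hi; omega)

theorem g_le (p : ℕ) (hp : 3 ≤ p) : g p ≤ (2 * p) ^ (4 * p ^ 2) :=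
  Nat.sInf_le (arrow p hp _ le_rfl)

theorem arrow_g (p : ℕ) (hp : 3 ≤ p) : Arrow p (g p) :=
  Nat.sInf_mem (s := {n | Arrow p n}) ⟨_, arrow p hp _ le_rfl⟩

end Pool.Agent.W610.CP
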